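import Pool.Agent.Helper66_DE.Statements

/-!
# Module COV (helper76): refinement of the cover
-/

open CategoryTheory CategoryTheory.Limits AlgebraicGeometry

noncomputable section

namespace Pool.Agent.H66DE

/-- a basic open set of an affine scheme -/
def bO (A : Type) [CommRing A] (h : A) : (Spec (CommRingCat.of A)).Opens :=
  (PrimeSpectrum.basicOpen h : TopologicalSpace.Opens (PrimeSpectrum A))

set_option backward.isDefEq.respectTransparency.types false in
theorem bO_equiv (A : Type) [CommRing A] (h : A) :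
    Nonempty (Localization.Away h ≃+* Γ(Spec (CommRingCat.of A), bO A h)) := by
  let e : Localization.Away h ≃ₐ[A]
      ((Spec.structureSheaf A).obj.obj (Opposite.op (PrimeSpectrum.basicOpen h))) :=
    IsLocalization.algEquiv (Submonoid.powers h) _ _
  exact ⟨e.toRingEquiv⟩

theorem bO_affine (A : Type) [CommRing A] (h : A) : IsAffineOpen (bO A h) := by
  have h2 := (isAffineOpen_top (Spec (CommRingCat.of A))).basicOpen
    ((Scheme.ΓSpecIso (CommRingCat.of A)).inv h)
  have h3 : (Spec (CommRingCat.of A)).basicOpen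
      ((Scheme.ΓSpecIso (CommRingCat.of A)).inv h) = bO A h :=
    basicOpen_eq_of_affine (R := CommRingCat.of A) h
  rw [h3] at h2
  exact h2

theorem cover (hE : FinGlEquivStatement) : CoverStatement := by
  intro Y ι _ A _ j hj hcov hH
  choose H hH1 hH2 using hH
  let U : (Σ i, {h : A i // h ∈ H i}) → Y.Opens := fun k => j k.1 ''ᵁ (bO (A k.1) k.2.1)
  refine ⟨Σ i, {h : A i // h ∈ H i}, inferInstance, U, ?_, ?_, ?_⟩
  · rintro ⟨i, h⟩
    exact (bO_affine (A i) h.1).image_of_isOpenImmersion (j i)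
  · rw [eq_top_iff]
    intro y _
    obtain ⟨i, p, rfl⟩ := hcov y
    obtain ⟨h, hh, hp⟩ : ∃ h ∈ H i, h ∉ p.asIdeal := by
      by_contra hc
      push Not at hc
      have h1 : Ideal.span (H i : Set (A i)) ≤ p.asIdeal := Ideal.span_le.2 hc
      rw [hH1, top_le_iff] at h1
      exact p.2.ne_top h1
    exact TopologicalSpace.Opens.mem_iSup.2 ⟨⟨i, h, hh⟩, ⟨p, hp, rfl⟩⟩
  · rintro ⟨i, h, hh⟩
    obtain ⟨e1⟩ := bO_equiv (A i) h
    let e2 : Γ(Spec (CommRingCat.of (A i)), bO (A i) h) ≃+* Γ(Y, U ⟨i, h, hh⟩) :=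
      ((j i).appIso (bO (A i) h)).symm.commRingCatIsoToRingEquiv
    exact hE _ _ (e1.trans e2) (hH2 i h hh)

end Pool.Agent.H66DE
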