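import Pool.Agent.Helper66_DE.Statements

/-!
# Module ORD (helper76): order of vanishing in terms of the local subring
-/

open CategoryTheory CategoryTheory.Limits AlgebraicGeometry

noncomputable section

namespace Pool.Agent.H66DE

/-- if every element is a unit or divisible by the non-unit `a` then the order of `a` is one -/
theorem ring_ord_eq_one {R : Type*} [CommRing R] (a : R) (ha : ¬ IsUnit a)
    (h : ∀ b : R, IsUnit b ∨ a ∣ b) : Ring.ord R a = 1 := by
  rw [Ring.ord, Module.length_eq_one_iff, isSimpleModule_iff_isCoatom]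
  have : (Ideal.span {a}).IsMaximal := by
    rw [Ideal.isMaximal_iff]
    refine ⟨?_, ?_⟩
    · intro h1
      rw [Ideal.mem_span_singleton] at h1
      exact ha (isUnit_of_dvd_one h1)
    · intro J x _ hx hxJ
      rw [Ideal.mem_span_singleton] at hx
      rcases h x with h2 | h2
      · exact (Ideal.eq_top_iff_one J).1 (Ideal.eq_top_of_isUnit_mem J hxJ h2)
      · exact absurd h2 hx
  exact this.out

theorem ordHom_algebraMap (Y : Scheme.{0}) [IsIntegral Y] [IsLocallyNoetherian Y] (z : Y)
    (hz : Order.coheight z = 1) (a : Y.presheaf.stalk z) (ha : a ≠ 0) (n : ℕ)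
    (hn : Ring.ord (Y.presheaf.stalk z) a = n) :
    Scheme.ordHom z hz (algebraMap (Y.presheaf.stalk z) Y.functionField a) =
      Multiplicative.ofAdd (n : ℤ) := by
  haveI : Ring.KrullDimLE 1 (Y.presheaf.stalk z) := krullDimLE_of_coheight_le hz.le
  have h1 : Scheme.ordHom z hz = Ring.ordFrac (Y.presheaf.stalk z) := rfl
  rw [h1, Ring.ordFrac_eq_ord _ ha,
    Ring.ordMonoidWithZeroHom_eq_coe _ (mem_nonZeroDivisors_of_ne_zero ha) hn]

theorem ord : OrdStatement := by
  intro Y _ _ z hz g hg
  have hinj : Function.Injective (algebraMap (Y.presheaf.stalk z) Y.functionField) :=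
    IsFractionRing.injective _ _
  refine ⟨?_, ?_⟩
  · rintro ⟨a, ha⟩ ⟨b, hb⟩
    have ha0 : a ≠ 0 := by
      rintro rfl
      exact hg (by rw [← ha, map_zero])
    have hu : IsUnit a := by
      refine IsUnit.of_mul_eq_one b ?_
      apply hinj
      rw [map_mul, ha, hb, map_one, mul_inv_cancel₀ hg]
    have h1 := ordHom_algebraMap Y z hz a ha0 0 (by rw [Ring.ord_of_isUnit hu]; rfl)
    rw [Scheme.ord_eq_iff hz hg, ← ha, h1]
    rfl
  · rintro ⟨a, ha⟩ hb hdiv
    have ha0 : a ≠ 0 := by
      rintro rfl
      exact hg (by rw [← ha, map_zero])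
    have hinv : ∀ c : Y.presheaf.stalk z, c ≠ 0 →
        (algebraMap (Y.presheaf.stalk z) Y.functionField c)⁻¹ ∈ stalkSubring Y z → IsUnit c := by
      rintro c hc ⟨b, hb⟩
      refine IsUnit.of_mul_eq_one b ?_
      apply hinj
      rw [map_mul, hb, map_one, mul_inv_cancel₀]
      intro h0
      exact hc (hinj (by rw [h0, map_zero]))
    have hnu : ¬ IsUnit a := by
      intro hu
      obtain ⟨b, hab⟩ := isUnit_iff_exists_inv.1 hu
      apply hb
      refine ⟨b, ?_⟩
      rw [← ha]
      apply eq_inv_of_mul_eq_one_right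
      rw [← map_mul, hab, map_one]
    have hord : Ring.ord (Y.presheaf.stalk z) a = 1 := by
      refine ring_ord_eq_one a hnu fun b => ?_
      by_cases hb0 : b = 0
      · right
        rw [hb0]
        exact dvd_zero a
      · rcases hdiv _ ⟨b, rfl⟩ with h1 | ⟨c, hc⟩
        · left
          exact hinv b hb0 h1
        · right
          refine ⟨c, ?_⟩
          apply hinj
          rw [map_mul, hc, ha, mul_comm, mul_assoc, inv_mul_cancel₀ hg, mul_one]
    have h1 := ordHom_algebraMap Y z hz a ha0 1 (by rw [hord]; rfl)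
    rw [Scheme.ord_eq_iff hz hg, ← ha, h1]
    rfl

end Pool.Agent.H66DE
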