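import Pool.Agent.Helper66_DE.Statements

/-!
# Module STALK (helper76): an affine chart of an integral scheme
-/

open CategoryTheory CategoryTheory.Limits AlgebraicGeometry

noncomputable section

namespace Pool.Agent.H66DE

section

variable (A : Type) [CommRing A] (Y : Scheme.{0}) (j : Spec (CommRingCat.of A) ⟶ Y)
  [IsOpenImmersion j]

/-- sections on the chart -/
def secEquiv : A ≃+* Γ(Y, j ''ᵁ ⊤) :=
  ((Scheme.ΓSpecIso (CommRingCat.of A)).symm ≪≫ (j.appIso ⊤).symm).commRingCatIsoToRingEquiv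

theorem secEquiv_apply (a : A) : secEquiv A Y j a =
    (j.appIso ⊤).inv ((Scheme.ΓSpecIso (CommRingCat.of A)).inv a) := rfl

theorem mem_image_top (p : Spec (CommRingCat.of A)) : j p ∈ j ''ᵁ ⊤ := ⟨p, trivial, rfl⟩

theorem isUnit_germ_iff (p : Spec (CommRingCat.of A)) (s : A) :
    IsUnit (Y.presheaf.germ (j ''ᵁ ⊤) (j p) (mem_image_top A Y j p) (secEquiv A Y j s)) ↔
      s ∉ p.asIdeal := by
  rw [← Scheme.mem_basicOpen, secEquiv_apply, ← Scheme.image_basicOpen, basicOpen_eq_of_affine]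
  constructor
  · rintro ⟨q, hq, hqp⟩
    have h1 : q = p := j.isOpenEmbedding.injective hqp
    rw [h1] at hq
    exact hq
  · intro h
    exact ⟨p, h, rfl⟩

end

theorem stalk : StalkStatement := by
  intro A _ _ Y _ j _
  have hne : Nonempty (j ''ᵁ ⊤ : Y.Opens) :=
    ⟨⟨j (⊥ : PrimeSpectrum A), mem_image_top A Y j (⊥ : PrimeSpectrum A)⟩⟩
  have hU : IsAffineOpen (j ''ᵁ ⊤) := (isAffineOpen_top _).image_of_isOpenImmersion j
  have hfr := functionField_isFractionRing_of_isAffineOpen Y (j ''ᵁ ⊤) hU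
  let τ : A →+* Y.functionField := (Y.germToFunctionField (j ''ᵁ ⊤)).hom.comp
    (secEquiv A Y j).toRingHom
  have hτ : Function.Injective τ :=
    (Scheme.germToFunctionField_injective Y (j ''ᵁ ⊤)).comp (secEquiv A Y j).injective
  have hgerm : ∀ (p : Spec (CommRingCat.of A)) (a : A), algebraMap (Y.presheaf.stalk (j p))
      Y.functionField (Y.presheaf.germ (j ''ᵁ ⊤) (j p) (mem_image_top A Y j p)
        (secEquiv A Y j a)) = τ a := by
    intro p a
    rw [Scheme.algebraMap_germ_eq_germToFunctionField]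
    rfl
  refine ⟨τ, hτ, ?_, ?_, ?_⟩
  · intro z
    obtain ⟨⟨x, y⟩, hxy⟩ := IsLocalization.surj (nonZeroDivisors Γ(Y, j ''ᵁ ⊤)) z
    refine ⟨(secEquiv A Y j).symm x, (secEquiv A Y j).symm y.1, ?_, ?_⟩
    · simp
    · have e1 : τ ((secEquiv A Y j).symm x) = algebraMap Γ(Y, j ''ᵁ ⊤) Y.functionField x := by
        show (Y.germToFunctionField (j ''ᵁ ⊤)) (secEquiv A Y j ((secEquiv A Y j).symm x)) = _
        rw [RingEquiv.apply_symm_apply]
        rfl
      have e2 : τ ((secEquiv A Y j).symm y.1) =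
          algebraMap Γ(Y, j ''ᵁ ⊤) Y.functionField y.1 := by
        show (Y.germToFunctionField (j ''ᵁ ⊤)) (secEquiv A Y j ((secEquiv A Y j).symm y.1)) = _
        rw [RingEquiv.apply_symm_apply]
        rfl
      rw [e1, e2]
      exact hxy
  · intro p z
    constructor
    · rintro ⟨w, hw⟩
      have hloc := hU.isLocalization_stalk ⟨j p, mem_image_top A Y j p⟩
      let _ : Algebra Γ(Y, j ''ᵁ ⊤) (Y.presheaf.stalk (j p)) :=
        TopCat.Presheaf.algebra_section_stalk Y.presheaf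
          (⟨j p, mem_image_top A Y j p⟩ : (j ''ᵁ ⊤ : Y.Opens))
      obtain ⟨⟨x, y⟩, hxy⟩ := IsLocalization.surj
        (hU.primeIdealOf ⟨j p, mem_image_top A Y j p⟩).asIdeal.primeCompl w
      have hu := IsLocalization.map_units (Y.presheaf.stalk (j p)) y
      refine ⟨(secEquiv A Y j).symm x, (secEquiv A Y j).symm y.1, ?_, ?_⟩
      · rw [← isUnit_germ_iff A Y j p, RingEquiv.apply_symm_apply]
        exact hu
      · rw [← hgerm p, ← hgerm p, RingEquiv.apply_symm_apply, RingEquiv.apply_symm_apply, ← hw,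
          ← map_mul]
        exact congrArg _ hxy
    · rintro ⟨a, s, hs, h⟩
      obtain ⟨u, hu⟩ := (isUnit_germ_iff A Y j p s).2 hs
      refine ⟨Y.presheaf.germ (j ''ᵁ ⊤) (j p) (mem_image_top A Y j p) (secEquiv A Y j a) *
        (u⁻¹ : (Y.presheaf.stalk (j p))ˣ), ?_⟩
      have hs0 : τ s ≠ 0 := by
        intro h0
        have : s = 0 := hτ (by rw [h0, map_zero])
        exact hs (this ▸ p.asIdeal.zero_mem)
      have h2 : algebraMap (Y.presheaf.stalk (j p)) Y.functionField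
          ((u⁻¹ : (Y.presheaf.stalk (j p))ˣ) : Y.presheaf.stalk (j p)) * τ s = 1 := by
        rw [← hgerm p s, ← hu, ← map_mul, Units.inv_mul, map_one]
      apply mul_right_cancel₀ hs0
      rw [map_mul, mul_assoc, h2, mul_one, hgerm, h]
  · intro R _ f φ hf
    have e1 : f.appTop ≫ Y.presheaf.map (homOfLE le_top : (j ''ᵁ ⊤ : Y.Opens) ⟶ ⊤).op ≫
        (j.appIso ⊤).hom = (j ≫ f).appTop := by
      rw [Scheme.Hom.appIso_hom', Scheme.Hom.map_appLE, Scheme.Hom.comp_appTop]
      congr 1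
    have e2 : (Scheme.ΓSpecIso (CommRingCat.of R)).inv ≫ f.appTop ≫
        Y.presheaf.map (homOfLE le_top : (j ''ᵁ ⊤ : Y.Opens) ⟶ ⊤).op =
        CommRingCat.ofHom φ ≫ (Scheme.ΓSpecIso (CommRingCat.of A)).inv ≫ (j.appIso ⊤).inv := by
      rw [← cancel_mono (j.appIso ⊤).hom]
      simp only [Category.assoc, Iso.inv_hom_id, Category.comp_id]
      rw [e1, hf, Scheme.ΓSpecIso_inv_naturality]
    ext r
    have e3 := congrArg (fun h => h.hom r) e2
    have e4 : toFF f r = (Y.germToFunctionField (j ''ᵁ ⊤))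
        (((Scheme.ΓSpecIso (CommRingCat.of R)).inv ≫ f.appTop ≫
          Y.presheaf.map (homOfLE le_top : (j ''ᵁ ⊤ : Y.Opens) ⟶ ⊤).op).hom r) := by
      have e5 : Y.presheaf.map (homOfLE le_top : (j ''ᵁ ⊤ : Y.Opens) ⟶ ⊤).op ≫
          Y.germToFunctionField (j ''ᵁ ⊤) = Y.presheaf.germ ⊤ (genericPoint Y) trivial :=
        Y.presheaf.germ_res _ _ _
      show (Y.presheaf.germ ⊤ (genericPoint Y) trivial).hom _ = _
      rw [← e5]
      rfl
    rw [e4]
    exact congrArg _ e3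

end Pool.Agent.H66DE
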