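import Pool.Agent.Helper66_DE.Statements

/-!
# Module TOP (helper76): points of an affine chart
-/

open CategoryTheory CategoryTheory.Limits AlgebraicGeometry

noncomputable section

namespace Pool.Agent.H66DE

theorem top : TopStatement := by
  intro A _ Y j _
  refine ⟨?_, ?_, ?_⟩
  · intro p
    have h1 : Order.coheight (j p) = Order.coheight p := coheight_eq_of_isOpenImmersion j
    rw [h1]
    exact (idealHeight_eq_coheight (CommRingCat.of A) p).symm
  · intro p q
    rw [j.isOpenEmbedding.isInducing.specializes_iff]
    exact (PrimeSpectrum.le_iff_specializes p q).symm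
  · intro p z hz
    exact hz.mem_open j.isOpenEmbedding.isOpen_range ⟨p, rfl⟩

end Pool.Agent.H66DE
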